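import Pool.Agent.H61.AR.Targets
import Pool.Agent.H58.CM.PBR

/-!
# arq_modules, row POU: Stokes' formula with a variable orientation
-/

set_option autoImplicit false

open Set Function MeasureTheory Filter Topology
open scoped Manifold ContDiff Matrix
open Pool.Agent.H61.AR Pool.Agent.H60.CM

namespace Pool.Agent.H89.AR

theorem pou_cpt (r : ℝ) : ContDiff ℝ ∞ (cpt r) := by
  refine contDiff_pi.2 fun i => ?_
  fin_cases i
  · exact contDiff_const.mul Real.contDiff_cos
  · exact contDiff_const.mul Real.contDiff_sin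
  · exact contDiff_const

theorem pou_dot (D : Dat) (v : V3) : Continuous fun q : D.S => D.x q ⬝ᵥ v := by
  have hx : Continuous D.x := Dat.Sm.cont D (Dat.smx D)
  have h : (fun q : D.S => D.x q ⬝ᵥ v) = fun q => ∑ i, D.x q i * v i := rfl
  rw [h]
  exact continuous_finsetSum _ fun i _ => ((continuous_apply i).comp hx).mul continuous_const

theorem pou_zero {a : ℝ} (ha : 0 < a) : (0 : E2) ∈ Qb a := by
  refine ⟨le_refl (0 : ℝ), ha, ?_⟩
  change |(0 : ℝ)| < a
  rwa [abs_zero]

theorem pf_POU (h1 : T_LB2) (h2 : T_BCH) (h3 : T_PBR) (h4 : T_CON) : T_POU := by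
  classical
  intro D γ hγ
  -- charts near the points of the boundary
  have hU : ∀ p : D.bd, ∃ (a : ℝ) (ψ : E2 → D.S), Bch D a ψ ∧ ψ 0 = p.1 ∧
      ∀ y ∈ Qb a, 0 < D.x (ψ y) ⬝ᵥ D.x (ψ 0) := by
    intro p
    have hp : D.x p.1 ⬝ᵥ D.x p.1 = D.r ^ 2 := (D.cmc.circle.mapsTo p.2).2
    have hr : 0 < D.r ^ 2 := pow_pos D.cmc.r_pos 2
    obtain ⟨a, ψ, hB, h0, him⟩ := h2 D p.1 {q | 0 < D.x q ⬝ᵥ D.x p.1} p.2
      (isOpen_lt continuous_const (pou_dot D _)) (by
        change 0 < D.x p.1 ⬝ᵥ D.x p.1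
        rw [hp]
        exact hr)
    refine ⟨a, ψ, hB, h0, fun y hy => ?_⟩
    rw [h0]
    exact him ⟨y, hy, rfl⟩
  choose a ψ hB h0 hpos using hU
  have hs := fun p : D.bd => h1 D γ hγ (a p) (ψ p) (hB p) (hpos p)
  choose s hs1 hs2 using hs
  have hopen : ∀ p, IsOpen (ψ p '' Qb (a p)) := by
    intro p
    have := (hB p).im univ isOpen_univ
    rwa [inter_univ] at this
  obtain ⟨t, ht⟩ := (D.bd_closed).isCompact.elim_finite_subcover
    (fun p : D.bd => ψ p '' Qb (a p)) hopen
    (fun p hp => mem_iUnion.2 ⟨⟨p, hp⟩, 0, pou_zero (hB ⟨p, hp⟩).pos, h0 ⟨p, hp⟩⟩)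
  obtain ⟨U, hU0, hU1⟩ : ∃ U : Option t → Set D.S, U none = D.int ∧
      ∀ p : t, U (some p) = ψ p.1 '' Qb (a p.1) :=
    ⟨fun o => o.elim D.int fun p => ψ p.1 '' Qb (a p.1), rfl, fun _ => rfl⟩
  have hUo : ∀ o, IsOpen (U o) := by
    intro o
    cases o with
    | none =>
      rw [hU0]
      exact D.int_open
    | some p =>
      rw [hU1]
      exact hopen _
  obtain ⟨ρ, hρ⟩ := SmoothPartitionOfUnity.exists_isSubordinate (𝓡∂ 2)
    (isClosed_univ (X := D.S)) U hUo (fun q _ => by
      rcases D.int_or_bd q with hq | hq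
      · exact mem_iUnion.2 ⟨none, by rw [hU0]; exact hq⟩
      · obtain ⟨p, hpt, hq2⟩ := mem_iUnion₂.1 (ht hq)
        exact mem_iUnion.2 ⟨some ⟨p, hpt⟩, by rw [hU1]; exact hq2⟩)
  have hsum : ∀ q, ρ none q + ∑ p : t, ρ (some p) q = 1 := by
    intro q
    have h5 := ρ.sum_eq_one (mem_univ q)
    rw [finsum_eq_sum_of_fintype, Fintype.sum_option] at h5
    exact h5
  have hρs : ∀ o, D.Sm fun q => ρ o q := fun o => (ρ o).contMDiff
  have hρc : ∀ o, Continuous fun θ => ρ o (γ θ) := fun o =>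
    (Dat.Sm.cont D (hρs o)).comp hγ.cont
  refine ⟨fun θ => ∑ p : t, s p.1 * ρ (some p) (γ θ), ?_, ?_, ?_, ?_⟩
  · exact continuous_finsetSum _ fun p _ => continuous_const.mul (hρc _)
  · intro θ
    simp only [hγ.per]
  · intro θ
    calc |∑ p : t, s p.1 * ρ (some p) (γ θ)| ≤ ∑ p : t, |s p.1 * ρ (some p) (γ θ)| :=
          Finset.abs_sum_le_sum_abs _ _
      _ = ∑ p : t, ρ (some p) (γ θ) := by
          refine Finset.sum_congr rfl fun p _ => ?_
          have h6 : |s p.1| = 1 := by
            rcases hs1 p.1 with h | h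
            · rw [h, abs_one]
            · rw [h, abs_neg, abs_one]
          rw [abs_mul, h6, one_mul, abs_of_nonneg (ρ.nonneg _ _)]
      _ ≤ 1 := by
          rw [← hsum (γ θ)]
          exact le_add_of_nonneg_left (ρ.nonneg _ _)
  · intro f B hf hBs
    have hb : D.Sm fun q => B (D.x q) := Dat.Sm.comp_left D (Dat.smx D) hBs
    have hg : ∀ o, D.Sm fun q => ρ o q * f q := fun o => Dat.Sm.mul D (hρs o) hf
    have hsupp : ∀ o, tsupport (fun q => ρ o q * f q) ⊆ U o := fun o =>
      tsupport_mul_subset_left.trans (hρ o)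
    have hfs : f = fun q => ∑ o : Option t, ρ o q * f q := by
      funext q
      rw [← Finset.sum_mul, Fintype.sum_option, hsum q, one_mul]
    have hbr : ∀ p, br D.x D.N f (fun q => B (D.x q)) p =
        ∑ o : Option t, br D.x D.N (fun q => ρ o q * f q) (fun q => B (D.x q)) p := by
      intro p
      have h5 := Pool.Agent.H58.CM.br_sum (Finset.univ : Finset (Option t)) D.x D.N
        (fun q => B (D.x q)) (fun o q => ρ o q * f q) p (fun o => Dat.Sm.md D (hg o) p)
      rw [← h5, ← hfs]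
    have hint : ∀ o, Integrable (br D.x D.N (fun q => ρ o q * f q) fun q => B (D.x q)) D.μ :=
      fun o => D.cont_int (h4 D _ _ (hg o) hb).2
    simp only [hbr]
    rw [integral_finsetSum _ fun o _ => (hint o).integrableOn, Fintype.sum_option]
    have hnone : ∫ p in D.int, br D.x D.N (fun q => ρ none q * f q) (fun q => B (D.x q)) p ∂D.μ
        = 0 := by
      have hT : Tst D.int fun q => ρ none q * f q := ⟨hg none, by
        have := hsupp none
        rwa [hU0] at this⟩
      rw [setIntegral_eq_integral_of_forall_compl_eq_zero]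
      · exact h3 D _ _ hT hb
      · intro p hp
        exact br_zero fun h => hp (hT.2 h)
    have hsome : ∀ p : t,
        ∫ q in D.int, br D.x D.N (fun q => ρ (some p) q * f q) (fun q => B (D.x q)) q ∂D.μ =
        ∫ θ in (0 : ℝ)..(2 * Real.pi),
          s p.1 * ρ (some p) (γ θ) * (f (γ θ) * deriv (fun τ => B (cpt D.r τ)) θ) := by
      intro p
      rw [hs2 p.1 (fun q => ρ (some p) q * f q) B (hg _) (by
        have := hsupp (some p)
        rwa [hU1] at this) hBs, ← intervalIntegral.integral_const_mul]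
      refine intervalIntegral.integral_congr fun θ _ => ?_
      change s p.1 * (ρ (some p) (γ θ) * f (γ θ) * deriv (fun τ => B (cpt D.r τ)) θ) =
        s p.1 * ρ (some p) (γ θ) * (f (γ θ) * deriv (fun τ => B (cpt D.r τ)) θ)
      ring
    have hdc : Continuous (deriv fun τ => B (cpt D.r τ)) :=
      (hBs.comp (pou_cpt D.r)).continuous_deriv (by simp)
    have hfc : Continuous fun θ => f (γ θ) := (Dat.Sm.cont D hf).comp hγ.cont
    rw [hnone, zero_add, Finset.sum_congr rfl fun p _ => hsome p]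
    rw [← intervalIntegral.integral_finsetSum]
    · refine intervalIntegral.integral_congr fun θ _ => ?_
      change ∑ p : t, s p.1 * ρ (some p) (γ θ) *
        (f (γ θ) * deriv (fun τ => B (cpt D.r τ)) θ) =
        (∑ p : t, s p.1 * ρ (some p) (γ θ)) * (f (γ θ) * deriv (fun τ => B (cpt D.r τ)) θ)
      rw [Finset.sum_mul]
    · intro p _
      exact ((continuous_const.mul (hρc _)).mul (hfc.mul hdc)).intervalIntegrable _ _

end Pool.Agent.H89.AR
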